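import Pool.Agent.Results.MP_6babc4_nt.EveryOneParameterFamily

/-!
# Frey's inequality in one-parameter families: the count of the exceptional parameters by height

The starting theorem `MP_6babc4_nt.EveryOneParameterFamily` in terms of the height of the parameter.
-/

set_option autoImplicit false

namespace Pool.Agent.T63.FF

open Polynomial
open Pool.Agent.Results.MP_6babc4_nt.EveryOneParameterFamily (IsFunction poleCount HoldsAt)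

/-- the height of a rational number: the maximum of the absolute values of numerator and denominator -/
def ht (t : ℚ) : ℕ := max t.num.natAbs t.den

/-- the slope -/
noncomputable def slope (N : ℕ) (ε : ℝ) : ℝ := (16 * (N + 1) / ε + 3) / 6

theorem fin_ht (B : ℕ) : {t : ℚ | |t.num| ≤ B ∧ t.den ≤ B}.Finite := by
  have h : {t : ℚ | |t.num| ≤ B ∧ t.den ≤ B} ⊆
      (fun p : ℤ × ℕ => (p.1 : ℚ) / p.2) '' (Set.Icc (-(B : ℤ)) B ×ˢ Set.Iic B) := by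
    rintro t ⟨h1, h2⟩
    refine ⟨(t.num, t.den), ⟨Set.mem_Icc.2 (abs_le.1 h1), h2⟩, ?_⟩
    exact Rat.num_div_den t
  exact (((Set.finite_Icc _ _).prod (Set.finite_Iic B)).image _).subset h

/-- counts for natural numbers give counts for real numbers -/
theorem to_real {T : Type*} (S : Set T) (h : T → ℕ) (U : ℕ → Set T)
    (hU : ∀ B : ℕ, (U B).Finite) (hS : ∀ B : ℕ, ∀ t ∈ S, h t ≤ B → t ∈ U B) {C s : ℝ} (hs : 0 ≤ s)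
    (hC : ∀ B : ℕ, 1 ≤ B → ((U B).ncard : ℝ) ≤ C * (B : ℝ) ^ s) :
    ∀ X : ℝ, 1 ≤ X → {t | t ∈ S ∧ (h t : ℝ) ≤ X}.Finite ∧
      ({t | t ∈ S ∧ (h t : ℝ) ≤ X}.ncard : ℝ) ≤ |C| * X ^ s := by
  intro X hX
  have hsub : {t | t ∈ S ∧ (h t : ℝ) ≤ X} ⊆ U ⌊X⌋₊ := by
    rintro t ⟨h1, h2⟩
    exact hS _ t h1 (Nat.le_floor h2)
  refine ⟨(hU _).subset hsub, ?_⟩
  have hB : 1 ≤ ⌊X⌋₊ := Nat.le_floor (by exact_mod_cast hX)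
  calc ({t | t ∈ S ∧ (h t : ℝ) ≤ X}.ncard : ℝ) ≤ ((U ⌊X⌋₊).ncard : ℝ) := by
        exact_mod_cast Set.ncard_le_ncard hsub (hU _)
    _ ≤ C * (⌊X⌋₊ : ℝ) ^ s := hC _ hB
    _ ≤ |C| * (⌊X⌋₊ : ℝ) ^ s := mul_le_mul_of_nonneg_right (le_abs_self C) (by positivity)
    _ ≤ |C| * X ^ s := by
        apply mul_le_mul_of_nonneg_left _ (abs_nonneg C)
        exact Real.rpow_le_rpow (by positivity) (Nat.floor_le (by linarith)) hs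

/-- the rational parameters -/
theorem count_rat (N : ℕ) (A D : ℤ[X]) (h : IsFunction N A D) (ε c₀ : ℝ) (hε : 0 < ε)
    (h2 : 2 ≤ poleCount N D) : ∃ C : ℝ, ∀ X : ℝ, 1 ≤ X →
    {t : ℚ | t ∈ {t : ℚ | ¬ HoldsAt (slope N ε) c₀ A D t} ∧ (ht t : ℝ) ≤ X}.Finite ∧
      ({t : ℚ | t ∈ {t : ℚ | ¬ HoldsAt (slope N ε) c₀ A D t} ∧ (ht t : ℝ) ≤ X}.ncard : ℝ) ≤
        C * X ^ ε := by
  obtain ⟨C, hC⟩ := (Pool.Agent.Results.MP_6babc4_nt.EveryOneParameterFamily.result N A D h ε c₀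
    hε).2.1 h2
  refine ⟨|C|, to_real {t : ℚ | ¬ HoldsAt (slope N ε) c₀ A D t} ht
    (fun B => {t : ℚ | |t.num| ≤ B ∧ t.den ≤ B ∧ ¬ HoldsAt (slope N ε) c₀ A D t})
    (fun B => (fin_ht B).subset fun t ht => ⟨ht.1, ht.2.1⟩) ?_ hε.le hC⟩
  intro B t h3 h4
  refine ⟨?_, (le_max_right _ _).trans h4, h3⟩
  have h5 : t.num.natAbs ≤ B := (le_max_left _ _).trans h4
  rw [Int.abs_eq_natAbs]
  exact_mod_cast h5

/-- the integral parameters -/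
theorem count_int (N : ℕ) (A D : ℤ[X]) (h : IsFunction N A D) (ε c₀ : ℝ) (hε : 0 < ε)
    (h2 : 1 ≤ D.natDegree) : ∃ C : ℝ, ∀ X : ℝ, 1 ≤ X →
    {t : ℤ | t ∈ {t : ℤ | ¬ HoldsAt (slope N ε) c₀ A D t} ∧ (t.natAbs : ℝ) ≤ X}.Finite ∧
      ({t : ℤ | t ∈ {t : ℤ | ¬ HoldsAt (slope N ε) c₀ A D t} ∧ (t.natAbs : ℝ) ≤ X}.ncard : ℝ) ≤
        C * X ^ ε := by
  obtain ⟨C, hC⟩ := (Pool.Agent.Results.MP_6babc4_nt.EveryOneParameterFamily.result N A D h ε c₀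
    hε).2.2 h2
  refine ⟨|C|, to_real {t : ℤ | ¬ HoldsAt (slope N ε) c₀ A D t} Int.natAbs
    (fun B => {t : ℤ | |t| ≤ B ∧ ¬ HoldsAt (slope N ε) c₀ A D t})
    (fun B => (Set.finite_Icc (-(B : ℤ)) B).subset fun t ht => Set.mem_Icc.2 (abs_le.1 ht.1))
    ?_ hε.le hC⟩
  intro B t h3 h4
  refine ⟨?_, h3⟩
  rw [Int.abs_eq_natAbs]
  exact_mod_cast h4

/-- from the exponent `s` to all exponents `s + η` -/
theorem epsRat {N : ℕ} {A D : ℤ[X]} {κ c₀ s : ℝ}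
    (h : ∃ C : ℝ, ∀ X : ℝ, 1 ≤ X →
      {t : ℚ | t ∈ {t : ℚ | ¬ HoldsAt κ c₀ A D t} ∧ (ht t : ℝ) ≤ X}.Finite ∧
      ({t : ℚ | t ∈ {t : ℚ | ¬ HoldsAt κ c₀ A D t} ∧ (ht t : ℝ) ≤ X}.ncard : ℝ) ≤ C * X ^ s) :
    ∀ η : ℝ, 0 < η → ∃ C : ℝ, ∀ X : ℝ, 1 ≤ X →
      {t : ℚ | (True ∧ ¬ HoldsAt κ c₀ A D t) ∧ (ht t : ℝ) ≤ X}.Finite ∧
      ({t : ℚ | (True ∧ ¬ HoldsAt κ c₀ A D t) ∧ (ht t : ℝ) ≤ X}.ncard : ℝ) ≤ C * X ^ (s + η) := by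
  intro η hη
  obtain ⟨C, hC⟩ := h
  refine ⟨|C|, fun X hX => ?_⟩
  have e : {t : ℚ | (True ∧ ¬ HoldsAt κ c₀ A D t) ∧ (ht t : ℝ) ≤ X} =
      {t : ℚ | t ∈ {t : ℚ | ¬ HoldsAt κ c₀ A D t} ∧ (ht t : ℝ) ≤ X} := by
    ext t
    simp
  rw [e]
  refine ⟨(hC X hX).1, (hC X hX).2.trans ?_⟩
  calc C * X ^ s ≤ |C| * X ^ s := mul_le_mul_of_nonneg_right (le_abs_self C) (by positivity)
    _ ≤ |C| * X ^ (s + η) :=
        mul_le_mul_of_nonneg_left (Real.rpow_le_rpow_of_exponent_le hX (by linarith)) (abs_nonneg C)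

/-- from the exponent `s` to all exponents `s + η` -/
theorem epsInt {N : ℕ} {A D : ℤ[X]} {κ c₀ s : ℝ}
    (h : ∃ C : ℝ, ∀ X : ℝ, 1 ≤ X →
      {t : ℤ | t ∈ {t : ℤ | ¬ HoldsAt κ c₀ A D t} ∧ (t.natAbs : ℝ) ≤ X}.Finite ∧
      ({t : ℤ | t ∈ {t : ℤ | ¬ HoldsAt κ c₀ A D t} ∧ (t.natAbs : ℝ) ≤ X}.ncard : ℝ) ≤ C * X ^ s) :
    ∀ η : ℝ, 0 < η → ∃ C : ℝ, ∀ X : ℝ, 1 ≤ X →
      {t : ℤ | (True ∧ ¬ HoldsAt κ c₀ A D t) ∧ (t.natAbs : ℝ) ≤ X}.Finite ∧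
      ({t : ℤ | (True ∧ ¬ HoldsAt κ c₀ A D t) ∧ (t.natAbs : ℝ) ≤ X}.ncard : ℝ) ≤
        C * X ^ (s + η) := by
  intro η hη
  obtain ⟨C, hC⟩ := h
  refine ⟨|C|, fun X hX => ?_⟩
  have e : {t : ℤ | (True ∧ ¬ HoldsAt κ c₀ A D t) ∧ (t.natAbs : ℝ) ≤ X} =
      {t : ℤ | t ∈ {t : ℤ | ¬ HoldsAt κ c₀ A D t} ∧ (t.natAbs : ℝ) ≤ X} := by
    ext t
    simp
  rw [e]
  refine ⟨(hC X hX).1, (hC X hX).2.trans ?_⟩
  calc C * X ^ s ≤ |C| * X ^ s := mul_le_mul_of_nonneg_right (le_abs_self C) (by positivity)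
    _ ≤ |C| * X ^ (s + η) :=
        mul_le_mul_of_nonneg_left (Real.rpow_le_rpow_of_exponent_le hX (by linarith)) (abs_nonneg C)

end Pool.Agent.T63.FF
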